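import Pool.Agent.H88.SL.Crd

/-!
# [H88 SL COV] Covolumes (75 min)

`(A.relIndex B)`, additive subgroups: `AddSubgroup.relIndex_mul_relIndex`, `relIndex_inf_mul_relIndex`, `AddSubgroup.index_ne_zero_of_finite`. `N 𝓞^n ≤ M`; `M` finitely generated over `𝓞 K` in `K^n`: there is `b : ℕ`, `b ≠ 0`, with `b M ≤ 𝓞^n` (denominators of the generators, `IsLocalization` / `exists_integral_multiple`).
`[𝓞^n : N 𝓞^n] = N ^ (n d)` (integral coordinates, `em_int`, `em_ex`; or `ZLattice`/`AddSubgroup.index_nsmul`-type, or the representatives with coordinates in `[0, N)`: `Finset.card_pi`, `Fintype.piFinset`): all the indices are finite. `cov_index`: all three relative to `M'' = N'' 𝓞^n ≤ M' ⊓ 𝓞^n`: `cov M = N'' ^ (n d) / [M : M'']`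
(`[𝓞^n : M''] = [𝓞^n : M ⊓ 𝓞^n] [M ⊓ 𝓞^n : M'']`, `[M : M''] = [M : M ⊓ 𝓞^n] [M ⊓ 𝓞^n : M'']`). `cov_rep`: representatives of `M / N 𝓞^n`. `cov_smul`: `M ⧸ J • ⊤` is the quotient by the submodule `J • M` (`Submodule.map_smul''`, `Submodule.range_subtype`), its cardinality is the index, `cov_index`. `ful_smul`:
`absNorm J ∈ J` (`Ideal.absNorm_mem`), `J.FG`, `Submodule.FG.smul`; `absNorm J ≠ 0`. `card_smul`: `a M ≤ J M`, `a = absNorm J`, `[a M : a N 𝓞^n] = [M : N 𝓞^n]` (multiplication by `a` is injective), so `cov (a M) = a ^ (n d) cov M`, `[M : J M] ≤ [M : a M] = a ^ (n d)`. `cov_le`, `cov_ge`: `cov_index` with `a 𝓞^n`, `b M`.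
-/

set_option autoImplicit false

open scoped NumberField
open H77.MF

noncomputable section

namespace H88.SL

variable {K : Type} [Field K] [NumberField K]

theorem ful_oo (n : ℕ) : Ful 1 (OO K n) := by
  sorry

theorem cov_oo (n : ℕ) : cov (OO K n) = 1 := by
  sorry

theorem cov_pos {n N : ℕ} {M : Submodule (𝓞 K) (Fin n → K)} (hM : Ful N M) : 0 < cov M := by
  sorry

theorem cov_index {n N N' : ℕ} {M M' : Submodule (𝓞 K) (Fin n → K)} (hM : Ful N M) (hM' : Ful N' M') (h : M' ≤ M) :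
    cov M' = (M'.toAddSubgroup.relIndex M.toAddSubgroup : ℝ) * cov M := by
  sorry

/-- representatives of `M` modulo `N 𝓞^n` -/
theorem cov_rep {n N : ℕ} {M : Submodule (𝓞 K) (Fin n → K)} (hM : Ful N M) : ∃ S : Finset (Fin n → K), (∀ s ∈ S, s ∈ M) ∧
    (∀ x ∈ M, ∃ s ∈ S, ∃ y ∈ OO K n, x = s + (N : 𝓞 K) • y) ∧
    (∀ s ∈ S, ∀ t ∈ S, (∃ y ∈ OO K n, s = t + (N : 𝓞 K) • y) → s = t) ∧ (S.card : ℝ) * cov M = (N : ℝ) ^ (n * Module.finrank ℚ K) := by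
  sorry

theorem ful_smul {n N : ℕ} {M : Submodule (𝓞 K) (Fin n → K)} (hM : Ful N M) {J : Ideal (𝓞 K)} (hJ : J ≠ ⊥) :
    Ful (N * Ideal.absNorm J) (J • M) := by
  sorry

theorem cov_smul {n N : ℕ} {M : Submodule (𝓞 K) (Fin n → K)} (hM : Ful N M) {J : Ideal (𝓞 K)} (hJ : J ≠ ⊥) :
    Finite (M ⧸ (J • ⊤ : Submodule (𝓞 K) M)) ∧ cov (J • M) = (Nat.card (M ⧸ (J • ⊤ : Submodule (𝓞 K) M)) : ℝ) * cov M := by
  sorry

theorem card_smul {n N : ℕ} {M : Submodule (𝓞 K) (Fin n → K)} (hM : Ful N M) {J : Ideal (𝓞 K)} (hJ : J ≠ ⊥) :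
    Nat.card (M ⧸ (J • ⊤ : Submodule (𝓞 K) M)) ≤ (Ideal.absNorm J) ^ (n * Module.finrank ℚ K) := by
  sorry

theorem cov_le {n N : ℕ} {M : Submodule (𝓞 K) (Fin n → K)} (hM : Ful N M) : cov M ≤ (N : ℝ) ^ (n * Module.finrank ℚ K) := by
  sorry

theorem cov_ge {n N : ℕ} {M : Submodule (𝓞 K) (Fin n → K)} (hM : Ful N M) {b : ℕ} (hb : b ≠ 0) (h : ∀ x ∈ M, (b : 𝓞 K) • x ∈ OO K n) :
    ((b : ℝ) ^ (n * Module.finrank ℚ K))⁻¹ ≤ cov M := by
  sorry

end H88.SL
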