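import Pool.Agent.H88.SL.Cube
import Pool.Agent.H88.SL.Cov

/-!
# [H88 SL CNT] Points of a lattice in a region (75 min)

`cnt_coset`: `S` from `cov_rep` (`M` modulo `N 𝓞^n`). The points `x` with `x - v ∈ M`, `em x ∈ D`, are the disjoint union over `s ∈ S` of those with `x = v + s + N y`, `y ∈ 𝓞^n`; by `em` (injective, `em_add`, `em_nat`, `em_int`, `em_ex`) these are the points of `D ∩ (em (v + s) + N ℤ^m)`: `cube_cnt` with the real number `N`. Sum over `S`:
`#{..} N^m ≤ |S| vo (up D N)`, `|S| vo (dn D N) ≤ #{..} N^m`, and `N^m = |S| cov M`: divide by `|S|` (`|S| ≥ 1` since `0 ∈ M`).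
`cnt_per`: `N' = N absNorm J`, `ful_smul`. The points are the disjoint union over the classes `c ∈ M ⧸ J • ⊤` of the points of `out c + J M`; `h` is constant on each (`Per`), so `∑ h = ∑ c, h (out c) #c`, `#c cov (J M)` and `vo D` are both in `[vo (dn D N'), vo (up D N')]` (`cnt_coset`, `dn_sub`, `vo_mono`), `|h (out c)| ≤ 1`,
`cov (J M) = card cov M` (`cov_smul`), `mean = (∑ᶠ h (out c)) / card`. `finsum` over a finite set: `finsum_mem_eq_finite_toFinset_sum`.
-/

set_option autoImplicit false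

open scoped NumberField
open H77.MF

noncomputable section

namespace H88.SL

variable {K : Type} [Field K] [NumberField K]

theorem cnt_coset {n N : ℕ} {M : Submodule (𝓞 K) (Fin n → K)} (hM : Ful N M) (v : Fin n → K) {D : Set (V K n)} (hD : Bdd D) :
    {x : Fin n → K | x - v ∈ M ∧ em x ∈ D}.Finite ∧ ({x : Fin n → K | x - v ∈ M ∧ em x ∈ D}.ncard : ℝ) * cov M ≤ vo (up D N) ∧
    vo (dn D N) ≤ ({x : Fin n → K | x - v ∈ M ∧ em x ∈ D}.ncard : ℝ) * cov M := by
  sorry

theorem cnt_per {n N : ℕ} {M : Submodule (𝓞 K) (Fin n → K)} (hM : Ful N M) {J : Ideal (𝓞 K)} (hJ : J ≠ ⊥) {h : (Fin n → K) → ℝ}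
    (hp : Per M J h) (h1 : ∀ f ∈ M, |h f| ≤ 1) {D : Set (V K n)} (hD : Bdd D) :
    |(∑ᶠ x ∈ {x : Fin n → K | x ∈ M ∧ em x ∈ D}, h x) - mean M J h * vo D / cov M| ≤
      (vo (up D (N * Ideal.absNorm J : ℕ)) - vo (dn D (N * Ideal.absNorm J : ℕ))) / cov M := by
  sorry

end H88.SL
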