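import Pool.Agent.H88.SL.Defs

/-!
# [H88 SL CRD] The real coordinates (60 min)

`ω = NumberField.integralBasis K` (a `ℚ`-basis of `K`, `NumberField.mem_span_integralBasis`: integral iff the coordinates are integers). `vl_em`: `Basis.sum_repr`, `σ` is a ring homomorphism, `map_ratCast`. `vl_le`: `C = 1 + ∑ σ, ∑ i, ‖σ (ω i)‖`. `le_vl`: `NumberField.canonicalEmbedding.latticeBasis K` is a
`ℂ`-basis of `(K →+* ℂ) → ℂ` with vectors `(σ (ω i))_σ` (`latticeBasis_apply`, `integralBasis_apply`): for fixed `j` the vector `(vl σ x j)_σ` has the coordinates `x j i` in it; a linear map on a finite dimensional space is bounded (`LinearMap.continuous_of_finiteDimensional`, `ContinuousLinearMap.le_opNorm`), or the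
coordinates are `∑ σ` of fixed coefficients times the values (`LinearMap.pi_apply_eq_sum_univ`). `B < 0`: no embedding would exist (`n = 0` is trivial: `j : Fin 0`).
-/

set_option autoImplicit false

open scoped NumberField
open H77.MF

noncomputable section

namespace H88.SL

variable {K : Type} [Field K] [NumberField K]

/-- the canonical basis -/
private abbrev LB (K : Type) [Field K] [NumberField K] : Module.Basis (Ix K) ℂ ((K →+* ℂ) → ℂ) :=
  NumberField.canonicalEmbedding.latticeBasis K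

private theorem LB_apply (i : Ix K) (σ : K →+* ℂ) : LB K i σ = σ (NumberField.integralBasis K i) := by
  rw [NumberField.canonicalEmbedding.latticeBasis_apply]
  rfl

private theorem LB_sum (c : Ix K → ℂ) (σ : K →+* ℂ) :
    (∑ i, c i • LB K i) σ = ∑ i, c i * σ (NumberField.integralBasis K i) := by
  rw [Finset.sum_apply]
  refine Finset.sum_congr rfl fun i _ => ?_
  rw [Pi.smul_apply, LB_apply, smul_eq_mul]

private theorem LB_vl {n : ℕ} (x : V K n) (j : Fin n) :
    (fun σ => vl σ x j) = ∑ i, (x j i : ℂ) • LB K i := by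
  funext σ
  rw [LB_sum]
  rfl

private theorem LB_repr (c : Ix K → ℂ) (i : Ix K) : (LB K).repr (∑ i, c i • LB K i) i = c i := by
  rw [Module.Basis.repr_sum_self]

theorem card_ix : Fintype.card (Ix K) = Module.finrank ℚ K := by
  exact (Module.finrank_eq_card_basis (NumberField.integralBasis K)).symm

theorem vl_em {n : ℕ} (σ : K →+* ℂ) (x : Fin n → K) : vl σ (em x) = fun j => σ (x j) := by
  funext j
  show ∑ i, ((((NumberField.integralBasis K).repr (x j) i : ℚ) : ℝ) : ℂ) * σ (NumberField.integralBasis K i) = σ (x j)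
  conv_rhs => rw [← (NumberField.integralBasis K).sum_repr (x j)]
  rw [map_sum]
  refine Finset.sum_congr rfl fun i _ => ?_
  rw [Rat.smul_def, map_mul, map_ratCast, Complex.ofReal_ratCast]

theorem em_add {n : ℕ} (x y : Fin n → K) : em (x + y) = em x + em y := by
  funext j i
  show (((NumberField.integralBasis K).repr (x j + y j) i : ℚ) : ℝ) = (((NumberField.integralBasis K).repr (x j) i : ℚ) : ℝ) +
    (((NumberField.integralBasis K).repr (y j) i : ℚ) : ℝ)
  rw [map_add, Finsupp.add_apply, Rat.cast_add]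

theorem em_sub {n : ℕ} (x y : Fin n → K) : em (x - y) = em x - em y := by
  funext j i
  show (((NumberField.integralBasis K).repr (x j - y j) i : ℚ) : ℝ) = (((NumberField.integralBasis K).repr (x j) i : ℚ) : ℝ) -
    (((NumberField.integralBasis K).repr (y j) i : ℚ) : ℝ)
  rw [map_sub, Finsupp.sub_apply, Rat.cast_sub]

theorem em_nat {n : ℕ} (N : ℕ) (x : Fin n → K) : em ((N : 𝓞 K) • x) = (N : ℝ) • em x := by
  funext j i
  show (((NumberField.integralBasis K).repr ((N : 𝓞 K) • x j) i : ℚ) : ℝ) =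
    (N : ℝ) * (((NumberField.integralBasis K).repr (x j) i : ℚ) : ℝ)
  have h : (N : 𝓞 K) • x j = (N : ℚ) • x j := by
    rw [Algebra.smul_def, Rat.smul_def]
    simp
  rw [h, map_smul, Finsupp.smul_apply, smul_eq_mul, Rat.cast_mul, Rat.cast_natCast]

theorem em_inj {n : ℕ} : Function.Injective (em : (Fin n → K) → V K n) := by
  intro x y h
  funext j
  refine (NumberField.integralBasis K).repr.injective (Finsupp.ext fun i => ?_)
  have h1 := congrFun (congrFun h j) i
  exact Rat.cast_injective h1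

theorem em_int {n : ℕ} (x : Fin n → K) : x ∈ OO K n ↔ ∀ j i, ∃ z : ℤ, em x j i = z := by
  have h1 : ∀ y : K, (∃ a : 𝓞 K, (a : K) = y) ↔ ∀ i, ∃ z : ℤ, (((NumberField.integralBasis K).repr y i : ℚ) : ℝ) = z := by
    intro y
    have h2 := NumberField.mem_span_integralBasis K (x := y)
    rw [Module.Basis.mem_span_iff_repr_mem] at h2
    rw [RingHom.mem_range] at h2
    constructor
    · intro h i
      obtain ⟨z, hz⟩ := h2.2 h i
      refine ⟨z, ?_⟩
      rw [← hz]
      simp
    · intro h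
      refine h2.1 fun i => ?_
      obtain ⟨z, hz⟩ := h i
      refine ⟨z, ?_⟩
      have h3 : ((z : ℚ) : ℝ) = (((NumberField.integralBasis K).repr y i : ℚ) : ℝ) := by
        rw [hz]
        simp
      have h4 := Rat.cast_injective h3
      rw [← h4]
      simp
  show (∀ i, ∃ a : 𝓞 K, (a : K) = x i) ↔ _
  exact forall_congr' fun j => h1 (x j)

/-- every integral point comes from `𝓞^n` -/
theorem em_ex {n : ℕ} (z : Fin n → Ix K → ℤ) : ∃ x ∈ OO K n, ∀ j i, em x j i = z j i := by
  have h1 : ∀ j i, em (fun j => ∑ i, ((z j i : ℤ) : ℚ) • NumberField.integralBasis K i) j i = z j i := by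
    intro j i
    show (((NumberField.integralBasis K).repr (∑ i, ((z j i : ℤ) : ℚ) • NumberField.integralBasis K i) i : ℚ) : ℝ) = z j i
    rw [Module.Basis.repr_sum_self]
    simp
  exact ⟨_, (em_int _).2 fun j i => ⟨z j i, h1 j i⟩, h1⟩

theorem vl_add {n : ℕ} (σ : K →+* ℂ) (x y : V K n) : vl σ (x + y) = vl σ x + vl σ y := by
  funext j
  simp only [vl, Pi.add_apply, Complex.ofReal_add, add_mul, Finset.sum_add_distrib]

theorem vl_sub {n : ℕ} (σ : K →+* ℂ) (x y : V K n) : vl σ (x - y) = vl σ x - vl σ y := by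
  funext j
  simp only [vl, Pi.sub_apply, Complex.ofReal_sub, sub_mul, Finset.sum_sub_distrib]

theorem vl_smul {n : ℕ} (σ : K →+* ℂ) (c : ℝ) (x : V K n) : vl σ (c • x) = (c : ℂ) • vl σ x := by
  funext j
  simp only [vl, Pi.smul_apply, smul_eq_mul, Complex.ofReal_mul, Finset.mul_sum, mul_assoc]

theorem vl_conj {n : ℕ} (σ : K →+* ℂ) (x : V K n) :
    vl (NumberField.ComplexEmbedding.conjugate σ) x = fun j => (starRingEnd ℂ) (vl σ x j) := by
  funext j
  show ∑ i, (x j i : ℂ) * NumberField.ComplexEmbedding.conjugate σ (NumberField.integralBasis K i) =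
    (starRingEnd ℂ) (∑ i, (x j i : ℂ) * σ (NumberField.integralBasis K i))
  rw [map_sum]
  refine Finset.sum_congr rfl fun i _ => ?_
  rw [map_mul, Complex.conj_ofReal, NumberField.ComplexEmbedding.conjugate_coe_eq]

theorem vl_le (K : Type) [Field K] [NumberField K] : ∃ C : ℝ, 1 ≤ C ∧ ∀ (n : ℕ) (x : V K n) (B : ℝ), (∀ j i, |x j i| ≤ B) → ∀ (σ : K →+* ℂ) j, ‖vl σ x j‖ ≤ C * B := by
  refine ⟨1 + ∑ σ : K →+* ℂ, ∑ i, ‖σ (NumberField.integralBasis K i)‖, ?_, fun n x B hB σ j => ?_⟩
  · have : 0 ≤ ∑ σ : K →+* ℂ, ∑ i, ‖σ (NumberField.integralBasis K i)‖ :=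
      Finset.sum_nonneg fun σ _ => Finset.sum_nonneg fun i _ => norm_nonneg _
    linarith
  · have hne : Nonempty (Ix K) := by
      rw [← Fintype.card_pos_iff, card_ix]
      exact Module.finrank_pos
    obtain ⟨i0⟩ := hne
    have hB0 : 0 ≤ B := (abs_nonneg _).trans (hB j i0)
    have h1 : ‖vl σ x j‖ ≤ (∑ i, ‖σ (NumberField.integralBasis K i)‖) * B := by
      unfold vl
      rw [Finset.sum_mul]
      refine (norm_sum_le _ _).trans (Finset.sum_le_sum fun i _ => ?_)
      rw [norm_mul, Complex.norm_real, Real.norm_eq_abs, mul_comm]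
      exact mul_le_mul_of_nonneg_left (hB j i) (norm_nonneg _)
    refine h1.trans (mul_le_mul_of_nonneg_right ?_ hB0)
    have h2 := Finset.single_le_sum (f := fun σ : K →+* ℂ => ∑ i, ‖σ (NumberField.integralBasis K i)‖)
      (fun σ _ => Finset.sum_nonneg fun i _ => norm_nonneg _) (Finset.mem_univ σ)
    have h2' : ∑ i, ‖σ (NumberField.integralBasis K i)‖ ≤ ∑ σ : K →+* ℂ, ∑ i, ‖σ (NumberField.integralBasis K i)‖ := h2
    linarith

theorem le_vl (K : Type) [Field K] [NumberField K] : ∃ C : ℝ, 1 ≤ C ∧ ∀ (n : ℕ) (x : V K n) (B : ℝ), (∀ (σ : K →+* ℂ) j, ‖vl σ x j‖ ≤ B) → ∀ j i, |x j i| ≤ C * B := by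
  classical
  refine ⟨1 + ∑ i, ∑ σ : K →+* ℂ, ‖(LB K).repr (Pi.single σ 1) i‖, ?_, fun n x B hB j i => ?_⟩
  · have : 0 ≤ ∑ i, ∑ σ : K →+* ℂ, ‖(LB K).repr (Pi.single σ 1) i‖ :=
      Finset.sum_nonneg fun σ _ => Finset.sum_nonneg fun i _ => norm_nonneg _
    linarith
  · obtain ⟨σ0⟩ : Nonempty (K →+* ℂ) := inferInstance
    have hB0 : 0 ≤ B := (norm_nonneg _).trans (hB σ0 j)
    have h0 : (LB K).repr (fun σ => vl σ x j) i = (x j i : ℂ) := by
      rw [LB_vl, LB_repr]
    have h1 : (fun σ => vl σ x j) = ∑ σ : K →+* ℂ, vl σ x j • (Pi.single σ 1 : (K →+* ℂ) → ℂ) := by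
      funext τ
      rw [Finset.sum_apply, Finset.sum_eq_single τ]
      · simp
      · intro σ _ hσ
        rw [Pi.smul_apply, Pi.single_eq_of_ne hσ.symm, smul_zero]
      · intro h
        exact absurd (Finset.mem_univ _) h
    rw [h1, map_sum, Finsupp.finsetSum_apply] at h0
    have h2 : |x j i| = ‖(x j i : ℂ)‖ := by
      rw [Complex.norm_real, Real.norm_eq_abs]
    have h3 : |x j i| ≤ (∑ σ : K →+* ℂ, ‖(LB K).repr (Pi.single σ 1) i‖) * B := by
      rw [h2, ← h0, Finset.sum_mul]
      refine (norm_sum_le _ _).trans (Finset.sum_le_sum fun σ _ => ?_)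
      rw [map_smul, Finsupp.smul_apply, norm_smul, mul_comm]
      exact mul_le_mul_of_nonneg_left (hB σ j) (norm_nonneg _)
    refine h3.trans (mul_le_mul_of_nonneg_right ?_ hB0)
    have h4 := Finset.single_le_sum (f := fun i => ∑ σ : K →+* ℂ, ‖(LB K).repr (Pi.single σ 1) i‖)
      (fun i _ => Finset.sum_nonneg fun σ _ => norm_nonneg _) (Finset.mem_univ i)
    have h4' : ∑ σ : K →+* ℂ, ‖(LB K).repr (Pi.single σ 1) i‖ ≤ ∑ i, ∑ σ : K →+* ℂ, ‖(LB K).repr (Pi.single σ 1) i‖ := h4
    linarith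

/-- a family of vectors compatible with the conjugation comes from a real point -/
theorem vl_ex {n : ℕ} (z : (K →+* ℂ) → Fin n → ℂ) (hz : ∀ σ j, z (NumberField.ComplexEmbedding.conjugate σ) j = (starRingEnd ℂ) (z σ j)) :
    ∃! x : V K n, ∀ σ, vl σ x = z σ := by
  have hw : ∀ j, (fun σ => z σ j) = ∑ i, (LB K).repr (fun σ => z σ j) i • LB K i := fun j =>
    ((LB K).sum_repr _).symm
  have hreal : ∀ j i, (((LB K).repr (fun σ => z σ j) i).re : ℂ) = (LB K).repr (fun σ => z σ j) i := by
    intro j i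
    have h1 : (fun σ => z σ j) = ∑ i, (starRingEnd ℂ) ((LB K).repr (fun σ => z σ j) i) • LB K i := by
      funext σ
      rw [LB_sum]
      have h2 := congrFun (hw j) (NumberField.ComplexEmbedding.conjugate σ)
      rw [LB_sum] at h2
      have h3 := congrArg (starRingEnd ℂ) h2
      rw [hz, Complex.conj_conj, map_sum] at h3
      rw [h3]
      refine Finset.sum_congr rfl fun i _ => ?_
      rw [map_mul, NumberField.ComplexEmbedding.conjugate_coe_eq, Complex.conj_conj]
    have h4 : (LB K).repr (fun σ => z σ j) i =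
        (LB K).repr (∑ i, (starRingEnd ℂ) ((LB K).repr (fun σ => z σ j) i) • LB K i) i :=
      congrArg (fun w => (LB K).repr w i) h1
    rw [LB_repr] at h4
    exact Complex.conj_eq_iff_re.1 h4.symm
  refine ⟨fun j i => ((LB K).repr (fun σ => z σ j) i).re, fun σ => ?_, fun y hy => ?_⟩
  · funext j
    have h1 := congrFun (LB_vl (K := K) (fun j i => ((LB K).repr (fun σ => z σ j) i).re) j) σ
    simp only [hreal] at h1
    rw [← hw j] at h1
    exact h1
  · funext j i
    have h1 := LB_vl y j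
    have h2 : (fun σ => vl σ y j) = fun σ => z σ j := by
      funext σ
      rw [hy]
    rw [h2] at h1
    have h3 : (LB K).repr (fun σ => z σ j) i = (LB K).repr (∑ i, (y j i : ℂ) • LB K i) i :=
      congrArg (fun w => (LB K).repr w i) h1
    rw [LB_repr] at h3
    rw [h3, Complex.ofReal_re]

end H88.SL
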