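import Pool.Agent.H88.SL.Defs

/-!
# [H88 SL CUB] Binary cubic forms over `ℂ` (75 min)

`tri`: `f 0 ≠ 0`: let `a₁, a₂, a₃` be the roots of `X³ + b X² + a c X + a² d` (`a, b, c, d = f 0, .., f 3`; `IsAlgClosed`, splits; the elementary symmetric functions are `-b`, `a c`, `-a² d`). Put `M = !![a₁ - a₂, -(a₁ - a₂) a₃ / a; a₂ - a₃, -(a₂ - a₃) a₁ / a]`. (Meaning: `a_i` are the conjugates of the first basis
vector `w₀`, `w₁ = -a d / w₀`, with differences `-(a_i - a_j) a_k / a`; `M v` = the first two differences of `v₀ w₀ + v₁ w₁`.) The identities are polynomial identities: replace `b = -(a₁ + a₂ + a₃)`, `c = (a₁a₂ + a₁a₃ + a₂a₃) / a`, `d = -a₁a₂a₃ / a²`, `field_simp`, `ring`. (`det M = (a₁ - a₂)(a₂ - a₃)(a₃ - a₁) / a`.)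
`f 0 = 0`, `f ≠ 0`: there is `k ∈ {1, -1, 2, ..}` with `ev f ![1, k] ≠ 0` (a cubic in `k` which is not zero), `f' = pull f ![1, k] ![0, 1]`, `f' 0 ≠ 0`, `M f = M f' * !![1, 0; -k, 1]` (`ev f' v = ev f ![v 0, k v 0 + v 1]`, the same for `hes`, `disc f' = disc f`). `f = 0`: `M = 0`.
`q_cu`: `u₀, u₁, -(u₀ + u₁)` are the roots of `X³ - q X + cu`; so `‖u_i‖³ ≤ ‖q‖ ‖u_i‖ + ‖cu‖ ≤ T² ‖u_i‖ + T³`, so `‖u_i‖ ≤ 2 T` (`8 > 2 + 1`).
`q_le`, `cu_le`: expand; `δ ≤ ...` is not needed: `T² + 3 (2T) δ 2.. + 3 δ² ≤ (T + 60 δ)²` and the same for the third power (`nlinarith` / `gcongr`).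
-/

set_option autoImplicit false

open scoped NumberField Matrix
open H77.MF

noncomputable section

namespace H88.SL

private theorem cub_quad (A B C : ℂ) : ∃ p2 q2 p3 q3 : ℂ, A = p2 * p3 ∧ B = p2 * q3 + q2 * p3 ∧ C = q2 * q3 := by
  by_cases hA : A = 0
  · exact ⟨0, 1, B, C, by rw [hA]; ring, by ring, by ring⟩
  · obtain ⟨s, hs⟩ := IsAlgClosed.exists_pow_nat_eq (B ^ 2 - 4 * A * C) (n := 2) (by norm_num)
    refine ⟨A, (B - s) / 2, 1, (B + s) / (2 * A), by ring, by field_simp; ring, ?_⟩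
    have h : (B - s) / 2 * ((B + s) / (2 * A)) = (B ^ 2 - s ^ 2) / (4 * A) := by
      field_simp
      ring
    rw [h, hs]
    field_simp
    ring

private theorem cub_fac (f : Fin 4 → ℂ) : ∃ p1 q1 p2 q2 p3 q3 : ℂ, f 0 = p1 * p2 * p3 ∧
    f 1 = p1 * p2 * q3 + p1 * q2 * p3 + q1 * p2 * p3 ∧
    f 2 = p1 * q2 * q3 + q1 * p2 * q3 + q1 * q2 * p3 ∧ f 3 = q1 * q2 * q3 := by
  by_cases h0 : f 0 = 0
  · obtain ⟨p2, q2, p3, q3, h1, h2, h3⟩ := cub_quad (f 1) (f 2) (f 3)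
    exact ⟨0, 1, p2, q2, p3, q3, by rw [h0]; ring, by rw [h1]; ring, by rw [h2]; ring, by rw [h3]; ring⟩
  · obtain ⟨ρ, hρ⟩ : ∃ ρ : ℂ, f 0 * ρ ^ 3 + f 1 * ρ ^ 2 + f 2 * ρ + f 3 = 0 := by
      have hd : (Polynomial.C (f 0) * Polynomial.X ^ 3 + Polynomial.C (f 1) * Polynomial.X ^ 2 +
          Polynomial.C (f 2) * Polynomial.X + Polynomial.C (f 3) : Polynomial ℂ).degree = 3 :=
        Polynomial.degree_cubic h0
      obtain ⟨ρ, hρ⟩ := IsAlgClosed.exists_root (Polynomial.C (f 0) * Polynomial.X ^ 3 +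
        Polynomial.C (f 1) * Polynomial.X ^ 2 + Polynomial.C (f 2) * Polynomial.X + Polynomial.C (f 3) : Polynomial ℂ)
        (by rw [hd]; decide)
      refine ⟨ρ, ?_⟩
      have h := hρ
      rw [Polynomial.IsRoot.def] at h
      simpa using h
    obtain ⟨p2, q2, p3, q3, h1, h2, h3⟩ := cub_quad (f 0) (f 1 + f 0 * ρ) (f 2 + ρ * (f 1 + f 0 * ρ))
    refine ⟨1, -ρ, p2, q2, p3, q3, by rw [h1]; ring, ?_, ?_, ?_⟩
    · linear_combination h2 - ρ * h1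
    · linear_combination h3 - ρ * h2
    · linear_combination hρ - ρ * h3

theorem tri (f : Fin 4 → ℂ) : ∃ M : Matrix (Fin 2) (Fin 2) ℂ, M.det ^ 2 = disc f ∧ ∀ v : Fin 2 → ℂ,
    hes f v = q (M *ᵥ v) ∧ disc f * ev f v ^ 2 = cu (M *ᵥ v) ^ 2 := by
  obtain ⟨p1, q1, p2, q2, p3, q3, h0, h1, h2, h3⟩ := cub_fac f
  refine ⟨!![(p1 * q2 - p2 * q1) * p3, (p1 * q2 - p2 * q1) * q3;
    (p2 * q3 - p3 * q2) * p1, (p2 * q3 - p3 * q2) * q1], ?_, fun v => ⟨?_, ?_⟩⟩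
  · rw [Matrix.det_fin_two]
    simp only [disc, h0, h1, h2, h3, Matrix.of_apply, Matrix.cons_val', Matrix.cons_val_zero,
      Matrix.cons_val_one, Matrix.cons_val_fin_one]
    ring
  · simp only [hes, hA, hC, q, h0, h1, h2, h3, Matrix.mulVec, dotProduct, Fin.sum_univ_two, Matrix.of_apply,
      Matrix.cons_val', Matrix.cons_val_zero, Matrix.cons_val_one, Matrix.cons_val_fin_one]
    ring
  · simp only [disc, ev, cu, h0, h1, h2, h3, Matrix.mulVec, dotProduct, Fin.sum_univ_two, Matrix.of_apply,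
      Matrix.cons_val', Matrix.cons_val_zero, Matrix.cons_val_one, Matrix.cons_val_fin_one]
    ring

theorem q_cu {u : Fin 2 → ℂ} {T : ℝ} (hT : 0 ≤ T) (h1 : ‖q u‖ ≤ T ^ 2) (h2 : ‖cu u‖ ≤ T ^ 3) : ∀ i, ‖u i‖ ≤ 2 * T := by
  have key : ∀ x : ℂ, x ^ 3 = q u * x - cu u → ‖x‖ ≤ 2 * T := by
    intro x hx
    by_contra hlt
    push Not at hlt
    have h3 : ‖x‖ ^ 3 ≤ T ^ 2 * ‖x‖ + T ^ 3 := by
      rw [← norm_pow, hx]
      refine (norm_sub_le _ _).trans (add_le_add ?_ h2)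
      rw [norm_mul]
      exact mul_le_mul_of_nonneg_right h1 (norm_nonneg _)
    have h4 : 0 < ‖x‖ := lt_of_le_of_lt (by positivity) hlt
    have h5 : 4 * T ^ 2 < ‖x‖ ^ 2 := by nlinarith
    have h6 : 4 * T ^ 2 * ‖x‖ < ‖x‖ ^ 3 := by nlinarith
    have h7 : T ^ 3 ≤ T ^ 2 * ‖x‖ := by nlinarith [mul_nonneg (sq_nonneg T) (by linarith : 0 ≤ ‖x‖ - T)]
    nlinarith [mul_nonneg (sq_nonneg T) h4.le]
  rw [Fin.forall_fin_two]
  exact ⟨key (u 0) (by simp only [q, cu]; ring), key (u 1) (by simp only [q, cu]; ring)⟩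

theorem q_le {u e : Fin 2 → ℂ} {T δ : ℝ} (hT : 0 ≤ T) (hδ : 0 ≤ δ) (h1 : ‖q u‖ ≤ T ^ 2) (h2 : ‖cu u‖ ≤ T ^ 3) (he : ∀ i, ‖e i‖ ≤ δ) :
    ‖q (u + e)‖ ≤ (T + 60 * δ) ^ 2 ∧ ‖cu (u + e)‖ ≤ (T + 60 * δ) ^ 3 := by
  have hu := q_cu hT h1 h2
  have u0 := hu 0
  have u1 := hu 1
  have e0 := he 0
  have e1 := he 1
  have m : ∀ (x y : ℂ) (a b : ℝ), ‖x‖ ≤ a → ‖y‖ ≤ b → ‖x * y‖ ≤ a * b := fun x y a b hx hy => by
    rw [norm_mul]
    exact mul_le_mul hx hy (norm_nonneg _) ((norm_nonneg _).trans hx)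
  have s0 : ‖u 0 + u 1‖ ≤ 4 * T := (norm_add_le _ _).trans (by linarith)
  have s1 : ‖e 0 + e 1‖ ≤ 2 * δ := (norm_add_le _ _).trans (by linarith)
  constructor
  · have h3 : q (u + e) = q u + (u 0 * (2 * e 0 + e 1) + u 1 * (e 0 + 2 * e 1)) + (e 0 * (e 0 + e 1) + e 1 * e 1) := by
      simp only [q, Pi.add_apply]
      ring
    have n1 : ‖2 * e 0 + e 1‖ ≤ 3 * δ := by
      refine (norm_add_le _ _).trans ?_
      rw [norm_mul]
      simp only [Complex.norm_ofNat]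
      linarith
    have n2 : ‖e 0 + 2 * e 1‖ ≤ 3 * δ := by
      refine (norm_add_le _ _).trans ?_
      rw [norm_mul]
      simp only [Complex.norm_ofNat]
      linarith
    have n3 := m _ _ _ _ u0 n1
    have n4 := m _ _ _ _ u1 n2
    have n5 := m _ _ _ _ e0 s1
    have n6 := m _ _ _ _ e1 e1
    have h4 : ‖q (u + e)‖ ≤ T ^ 2 + (2 * T * (3 * δ) + 2 * T * (3 * δ)) + (δ * (2 * δ) + δ * δ) := by
      rw [h3]
      refine (norm_add_le _ _).trans (add_le_add ((norm_add_le _ _).trans (add_le_add h1 ?_)) ?_)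
      · exact (norm_add_le _ _).trans (add_le_add n3 n4)
      · exact (norm_add_le _ _).trans (add_le_add n5 n6)
    refine h4.trans ?_
    nlinarith [mul_nonneg hT hδ, mul_nonneg hδ hδ]
  · have h3 : cu (u + e) = cu u + (e 0 * (u 1 * (u 0 + u 1)) + u 0 * (e 1 * (u 0 + u 1)) + u 0 * (u 1 * (e 0 + e 1))) +
        (e 0 * (e 1 * (u 0 + u 1)) + e 0 * (u 1 * (e 0 + e 1)) + u 0 * (e 1 * (e 0 + e 1))) +
        e 0 * (e 1 * (e 0 + e 1)) := by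
      simp only [cu, Pi.add_apply]
      ring
    have a1 := m _ _ _ _ e0 (m _ _ _ _ u1 s0)
    have a2 := m _ _ _ _ u0 (m _ _ _ _ e1 s0)
    have a3 := m _ _ _ _ u0 (m _ _ _ _ u1 s1)
    have a4 := m _ _ _ _ e0 (m _ _ _ _ e1 s0)
    have a5 := m _ _ _ _ e0 (m _ _ _ _ u1 s1)
    have a6 := m _ _ _ _ u0 (m _ _ _ _ e1 s1)
    have a7 := m _ _ _ _ e0 (m _ _ _ _ e1 s1)
    have h4 : ‖cu (u + e)‖ ≤ T ^ 3 + (δ * (2 * T * (4 * T)) + 2 * T * (δ * (4 * T)) + 2 * T * (2 * T * (2 * δ))) +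
        (δ * (δ * (4 * T)) + δ * (2 * T * (2 * δ)) + 2 * T * (δ * (2 * δ))) + δ * (δ * (2 * δ)) := by
      rw [h3]
      refine (norm_add_le _ _).trans (add_le_add ((norm_add_le _ _).trans (add_le_add
        ((norm_add_le _ _).trans (add_le_add h2 ?_)) ?_)) a7)
      · exact (norm_add_le _ _).trans (add_le_add ((norm_add_le _ _).trans (add_le_add a1 a2)) a3)
      · exact (norm_add_le _ _).trans (add_le_add ((norm_add_le _ _).trans (add_le_add a4 a5)) a6)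
    refine h4.trans ?_
    have b1 : 0 ≤ T ^ 2 * δ := by positivity
    have b2 : 0 ≤ T * δ ^ 2 := by positivity
    have b3 : 0 ≤ δ ^ 3 := by positivity
    nlinarith

end H88.SL
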