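import Pool.Agent.H88.SL.Defs

/-!
# [H88 SL CUBE] Points of `v + N ℤ^m` in a region (60 min)

`m = n d` coordinates, `d = [K : ℚ] = Fintype.card (Ix K)` (`Module.finrank_eq_card_chooseBasisIndex`, `NumberField.RingOfIntegers.rank`). For a point `x` let `Q x = {y | ∀ j i, x j i ≤ y j i < x j i + N}`, volume `N ^ m` (`Real.volume_pi_Ico` or `MeasureTheory.Measure.pi_pi`, `volume_pi_pi` twice). The cubes of different points
of `v + N ℤ^m` are disjoint, and every `y` is in exactly one of them (`⌊(y j i - v j i) / N⌋`). Finite: `x` bounded, so the `z j i` are in a bounded interval. Upper bound: the disjoint union of the `Q x`, `x ∈ D`, is in `up D N`, which is bounded (so its measure is finite): `measure_biUnion_finset`, `ENNReal.toReal_mono`.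
Lower bound: `y ∈ dn D N` is in `Q x`, `|y j i - x j i| ≤ N`, so `x ∈ D`: `dn D N` is contained in the union: `measure_biUnion_finset_le`. No measurability of `D` is needed (outer measure). `n d = 0` is no problem (`V` is one point, volume 1).
-/

set_option autoImplicit false

open scoped NumberField
open H77.MF

noncomputable section

namespace H88.SL

variable {K : Type} [Field K] [NumberField K]

/-- the measure of a bounded set is finite -/
theorem vo_fin {n : ℕ} {D : Set (V K n)} (hD : Bdd D) : MeasureTheory.volume D < ⊤ := by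
  sorry

theorem vo_mono {n : ℕ} {D D' : Set (V K n)} (hD : Bdd D') (h : D ⊆ D') : vo D ≤ vo D' := by
  sorry

theorem vo_box {n : ℕ} (B : ℝ) (hB : 0 ≤ B) : vo {x : V K n | ∀ j i, |x j i| ≤ B} = (2 * B) ^ (n * Module.finrank ℚ K) := by
  sorry

theorem bdd_up {n : ℕ} {D : Set (V K n)} (hD : Bdd D) (ρ : ℝ) : Bdd (up D ρ) := by
  sorry

theorem dn_sub {n : ℕ} {D : Set (V K n)} {ρ : ℝ} (hρ : 0 ≤ ρ) : dn D ρ ⊆ D ∧ D ⊆ up D ρ := by
  sorry

theorem cube_cnt {n : ℕ} {D : Set (V K n)} (hD : Bdd D) {N : ℝ} (hN : 0 < N) (v : V K n) :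
    {x : V K n | x ∈ D ∧ ∀ j i, ∃ z : ℤ, x j i = v j i + N * z}.Finite ∧
    ({x : V K n | x ∈ D ∧ ∀ j i, ∃ z : ℤ, x j i = v j i + N * z}.ncard : ℝ) * N ^ (n * Module.finrank ℚ K) ≤ vo (up D N) ∧
    vo (dn D N) ≤ ({x : V K n | x ∈ D ∧ ∀ j i, ∃ z : ℤ, x j i = v j i + N * z}.ncard : ℝ) * N ^ (n * Module.finrank ℚ K) := by
  sorry

end H88.SL
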