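import Pool.Agent.H77.MF.Defs
import Mathlib.NumberTheory.NumberField.CanonicalEmbedding.Basic
import Mathlib.MeasureTheory.Measure.Lebesgue.EqHaar

/-!
# [H88 SL] SX chapter (M-A), lattice points and regions: definitions (complete)

Forms and lattices: `H77/MF/Defs.lean`. `K` a number field, `d = [K : ℚ]`, `ω = NumberField.integralBasis K`, index type `Ix K`.
* `V K n = Fin n → Ix K → ℝ`: the real space of `K^n` (`nd` real coordinates with respect to `ω`); `em x` the point of `x ∈ K^n` (the points of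
  `𝓞^n` are the integral points), `vl σ x ∈ ℂ^n` the value at the embedding `σ`: `vl σ (em x) = σ ∘ x`. `vo D` the volume (Lebesgue).
* `up D ρ`, `dn D ρ`: the set enlarged, reduced by the cube of radius `ρ`.
* `Ful N M`: `M ≤ K^n` finitely generated, contains `N 𝓞^n`. `cov M = [𝓞^n : M]` (generalised index), the covolume of `em M`.
* `q u = u₀² + u₀ u₁ + u₁²`, `cu u = u₀ u₁ (u₀ + u₁)`: the invariants of three complex numbers with differences `u₀, u₁`.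
* `Uf f T ⊆ V K 2` (`f : Fin 4 → K` a form): `‖hes f x‖ ≤ T²`, `‖disc f (ev f x)²‖ ≤ T⁶` at every embedding. `GB B f`: the two unit
  vectors are in `Uf f B` (the sizes of a frame).
* `RT T ⊆ V K 4`: `‖hA‖, ‖hC‖ ≤ T²`, `‖f₀² disc‖, ‖f₃² disc‖ ≤ T⁶` at every embedding; `Rg T x₁ x₂`: and `x₁ < ∏ ‖disc‖ ≤ x₂`; `gv α β` the
  volume of `Rg 1 α β`.
-/

set_option autoImplicit false

open scoped NumberField
open H77.MF

noncomputable section

namespace H88.SL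

section space

variable (K : Type) [Field K] [NumberField K]

/-- the index type of the integral basis -/
abbrev Ix : Type := Module.Free.ChooseBasisIndex ℤ (𝓞 K)

/-- the real space of `K^n` -/
abbrev V (n : ℕ) : Type := Fin n → Ix K → ℝ

variable {K}

/-- the real coordinates of a vector -/
def em {n : ℕ} (x : Fin n → K) : V K n := fun j i => (((NumberField.integralBasis K).repr (x j) i : ℚ) : ℝ)

/-- the value at an embedding -/
def vl {n : ℕ} (σ : K →+* ℂ) (x : V K n) : Fin n → ℂ :=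
  fun j => ∑ i, (x j i : ℂ) * σ (NumberField.integralBasis K i)

/-- the set enlarged -/
def up {n : ℕ} (D : Set (V K n)) (ρ : ℝ) : Set (V K n) := {y | ∃ x ∈ D, ∀ j i, |y j i - x j i| ≤ ρ}

/-- the set reduced -/
def dn {n : ℕ} (D : Set (V K n)) (ρ : ℝ) : Set (V K n) := {y | ∀ x, (∀ j i, |y j i - x j i| ≤ ρ) → x ∈ D}

/-- the volume -/
def vo {n : ℕ} (D : Set (V K n)) : ℝ := (MeasureTheory.volume D).toReal

/-- bounded -/
def Bdd {n : ℕ} (D : Set (V K n)) : Prop := ∃ B : ℝ, ∀ x ∈ D, ∀ j i, |x j i| ≤ B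

/-- a full lattice which contains `N 𝓞^n` -/
def Ful {n : ℕ} (N : ℕ) (M : Submodule (𝓞 K) (Fin n → K)) : Prop :=
  N ≠ 0 ∧ M.FG ∧ ∀ x ∈ OO K n, (N : 𝓞 K) • x ∈ M

/-- the covolume -/
def cov {n : ℕ} (M : Submodule (𝓞 K) (Fin n → K)) : ℝ :=
  (M.toAddSubgroup.relIndex (OO K n).toAddSubgroup : ℝ) / ((OO K n).toAddSubgroup.relIndex M.toAddSubgroup : ℝ)

end space

/-- the invariant of degree 2 -/
def q (u : Fin 2 → ℂ) : ℂ := u 0 ^ 2 + u 0 * u 1 + u 1 ^ 2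

/-- the invariant of degree 3 (up to sign) -/
def cu (u : Fin 2 → ℂ) : ℂ := u 0 * u 1 * (u 0 + u 1)

section region

variable {K : Type} [Field K] [NumberField K]

/-- the region of one vector -/
def Uf (f : Fin 4 → K) (T : ℝ) : Set (V K 2) :=
  {x | ∀ σ : K →+* ℂ, ‖hes (fun j => σ (f j)) (vl σ x)‖ ≤ T ^ 2 ∧
    ‖disc (fun j => σ (f j)) * ev (fun j => σ (f j)) (vl σ x) ^ 2‖ ≤ T ^ 6}

/-- the sizes of a frame -/
def GB (B : ℝ) (f : Fin 4 → K) : Prop :=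
  ∀ σ : K →+* ℂ, ‖σ (hA f)‖ ≤ B ^ 2 ∧ ‖σ (hC f)‖ ≤ B ^ 2 ∧ ‖σ (f 0 ^ 2 * disc f)‖ ≤ B ^ 6 ∧ ‖σ (f 3 ^ 2 * disc f)‖ ≤ B ^ 6

/-- the universal region of one vector -/
def U1 (K : Type) [Field K] [NumberField K] : Set (V K 2) :=
  {x | ∀ σ : K →+* ℂ, ‖q (vl σ x)‖ ≤ 1 ∧ ‖cu (vl σ x)‖ ≤ 1}

/-- the region of the forms -/
def RT (K : Type) [Field K] [NumberField K] (T : ℝ) : Set (V K 4) :=
  {x | ∀ σ : K →+* ℂ, ‖hA (vl σ x)‖ ≤ T ^ 2 ∧ ‖hC (vl σ x)‖ ≤ T ^ 2 ∧ ‖vl σ x 0 ^ 2 * disc (vl σ x)‖ ≤ T ^ 6 ∧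
    ‖vl σ x 3 ^ 2 * disc (vl σ x)‖ ≤ T ^ 6}

/-- the product of the discriminants -/
def dp (x : V K 4) : ℝ := ∏ σ : K →+* ℂ, ‖disc (vl σ x)‖

/-- the region of the forms with bounded discriminant -/
def Rg (K : Type) [Field K] [NumberField K] (T x₁ x₂ : ℝ) : Set (V K 4) := {x | x ∈ RT K T ∧ x₁ < dp x ∧ dp x ≤ x₂}

/-- the volume for `T = 1` -/
def gv (K : Type) [Field K] [NumberField K] (α β : ℝ) : ℝ := vo (Rg K 1 α β)

end region

end H88.SL
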