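import Pool.Agent.H88.SL.Cub
import Pool.Agent.H88.SL.Crd

/-!
# [H88 SL SF] The region of one vector enlarged and reduced (60 min)

At each `σ` let `M` be the matrix of `tri` for `σ ∘ f`. `GB B f`: the columns of `M` have `‖q‖ ≤ B²`, `‖cu‖² ≤ B⁶` (`hes f ![1, 0] = hA f`, `ev f ![1, 0] = f 0`, and the same for `![0, 1]`, `hC`, `f 3`), so the entries of `M` are at most `2 B` (`q_cu`; `‖cu‖ ≤ B³` from the square). If `|x j i - y j i| ≤ ρ`, then
`‖vl σ (x - y) j‖ ≤ C₀ ρ` (`vl_le`), so the entries of `M *ᵥ vl σ (x - y)` are at most `δ = 4 B C₀ ρ`. `x ∈ Uf f T` iff `‖q (M x)‖ ≤ T²`, `‖cu (M x)‖ ≤ T³` (`T ≥ 0`). `q_le`: `y ∈ Uf f (T + 60 δ)`. `C = 240 C₀`. The second statement is the first with `T - C B ρ` instead of `T`.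
-/

set_option autoImplicit false

open scoped NumberField Matrix
open H77.MF

noncomputable section

namespace H88.SL

theorem uf_up (K : Type) [Field K] [NumberField K] : ∃ C : ℝ, 1 ≤ C ∧ ∀ (f : Fin 4 → K) (B T ρ : ℝ), 0 ≤ B → GB B f → 0 ≤ T → 0 ≤ ρ →
    up (Uf f T) ρ ⊆ Uf f (T + C * B * ρ) ∧ (C * B * ρ ≤ T → Uf f (T - C * B * ρ) ⊆ dn (Uf f T) ρ) := by
  sorry

end H88.SL
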