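import Pool.Agent.H88.SL.Vf
import Pool.Agent.H88.SL.Sf
import Pool.Agent.H88.SL.Cnt

/-!
# [H88 SL FC] The number of the lattice vectors in the region of one vector (45 min)

`C₀` from `uf_up`, `η = C₀ B N / T`, `C ≥ 2 C₀`: `η ≤ 1/2`. `cnt_coset` with `D = Uf f T` (`bdd_uf`), `ρ = N`: `#{..} cov M` is between `vo (Uf f (T (1 - η)))` and `vo (Uf f (T (1 + η)))` (`uf_up`, `vo_mono`), `vol_uf` for both: `(1 ± η) ^ (2 d)` times the value at `T`. `(1 + η) ^ (2 d) ≤ 1 + 4 ^ (2 d) η` and `(1 - η) ^ (2 d) ≥ 1 - 2 d η`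
(`0 ≤ η ≤ 1/2`; Bernoulli `one_add_mul_le_pow`; the first by convexity or induction). `C` = a constant times `C₀ 16 ^ d (1 + vo (U1 K))`.
-/

set_option autoImplicit false

open scoped NumberField Matrix
open H77.MF

noncomputable section

namespace H88.SL

variable {K : Type} [Field K] [NumberField K]

theorem field_cnt (hK : ∀ σ : K →+* ℂ, NumberField.ComplexEmbedding.conjugate σ ≠ σ) : ∃ C : ℝ, 1 ≤ C ∧ ∀ (N : ℕ) (M : Submodule (𝓞 K) (Fin 2 → K)),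
    Ful N M → ∀ (v : Fin 2 → K) (f : Fin 4 → K), disc f ≠ 0 → ∀ B T : ℝ, 1 ≤ B → GB B f → C * B * N ≤ T →
    {x : Fin 2 → K | x - v ∈ M ∧ em x ∈ Uf f T}.Finite ∧
    |({x : Fin 2 → K | x - v ∈ M ∧ em x ∈ Uf f T}.ncard : ℝ) -
      vo (U1 K) * T ^ (2 * Module.finrank ℚ K) / (Real.sqrt |((Algebra.norm ℚ (disc f) : ℚ) : ℝ)| * cov M)| ≤
      C * (B * N / T) * T ^ (2 * Module.finrank ℚ K) / (Real.sqrt |((Algebra.norm ℚ (disc f) : ℚ) : ℝ)| * cov M) := by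
  sorry

end H88.SL
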