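import Pool.Agent.H88.SL.Cub
import Pool.Agent.H88.SL.Crd

/-!
# [H88 SL RGB] The region of forms: bounds (60 min)

`rt_bd`: `x ∈ RT K T`, `M` the matrix of `tri` for `g = vl σ x`: the columns have `‖q‖ ≤ T²`, `‖cu‖ ≤ T³`, so the entries of `M` are at most `2 T` (`q_cu`) and `‖disc g‖ = ‖det M‖² ≤ 64 T⁴`. `rg_bd`: `dp x > x₁ ≥ T^(4d)/y` and the other `d - 1` factors are at most `64 T⁴`: `‖disc g‖ ≥ T⁴ / (64 ^ d y)`. `‖g 0‖² ‖disc g‖ ≤ T⁶`: `‖g 0‖ ≤ 8 ^ d √y T ≤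
A`, `A = 8 ^ d y T`, the same for `g 3`. `‖g 1‖² ≤ ‖hA‖ + 3 ‖g 0‖ ‖g 2‖ ≤ T² + 3 A ‖g 2‖`, `‖g 2‖² ≤ T² + 3 A ‖g 1‖`: with `m` the maximum of both, `m² ≤ T² + 3 A m`, `m ≤ 3 A + T ≤ 4 A`. `Bdd`: `le_vl`. `C = 64 ^ d · 4`.
`gv_pos`: `t = ((α + β) / 2) ^ (1 / (4 d)) < 1`; the point `x` with `vl σ x = ![0, t, t, 0]` (`x = t • em ![0, 1, 1, 0]`): `hA = hC = t²`, `disc = t⁴`, `x 0 = x 3 = 0`, `dp = t ^ (4 d) = (α + β) / 2`: all inequalities are strict, so a neighbourhood of `x` is in `Rg K 1 α β` (all functions are continuous in `x`); open sets have positive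
measure (`IsOpen.measure_pos`), finite because bounded.
-/

set_option autoImplicit false

open scoped NumberField Matrix
open H77.MF

noncomputable section

namespace H88.SL

theorem rt_bd (K : Type) [Field K] [NumberField K] {T : ℝ} (hT : 0 ≤ T) {x : V K 4} (hx : x ∈ RT K T) (σ : K →+* ℂ) :
    ‖disc (vl σ x)‖ ≤ 64 * T ^ 4 := by
  sorry

theorem rg_bd (K : Type) [Field K] [NumberField K] : ∃ C : ℝ, 1 ≤ C ∧ ∀ T y x₁ x₂ : ℝ, 0 < T → 1 ≤ y → T ^ (4 * Module.finrank ℚ K) / y ≤ x₁ →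
    ∀ x ∈ Rg K T x₁ x₂, ∀ σ : K →+* ℂ, (∀ j, ‖vl σ x j‖ ≤ C * y * T) ∧ T ^ 4 / (C * y) ≤ ‖disc (vl σ x)‖ := by
  sorry

theorem bdd_rg {K : Type} [Field K] [NumberField K] {T x₁ x₂ : ℝ} (hT : 0 < T) (h : 0 < x₁) : Bdd (Rg K T x₁ x₂) := by
  sorry

theorem gv_pos (K : Type) [Field K] [NumberField K] {α β : ℝ} (h0 : 0 < α) (h : α < β) (h1 : β ≤ 1) : 0 < gv K α β := by
  sorry

end H88.SL
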