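import Pool.Agent.H88.SL.RgH
import Pool.Agent.H88.SL.RgB
import Pool.Agent.H88.SL.Cube

/-!
# [H88 SL RGV] The volume of the region of forms is Lipschitz (90 min)

`ps s t = gv K s t` (volume of `Rg K 1 s t`, bounded for `s > 0`). `thin`: `1/y ≤ s`, `0 < θ ≤ 1`. For the integers `k` with `0 ≤ k ≤ 1 / (2 θ)` let `r ^ (2 d) = (1 + θ) ^ (-k)` (`r = ((1 + θ)^k)⁻¹ ^ (1/(2d))`): `rg_star`: `gv (s (1+θ)^(-k)) (s (1+θ)^(1-k)) ≥ (1+θ)^(-k) gv s (s (1+θ)) ≥ gv s (s (1+θ)) / 2` (`(1+θ)^k ≤ exp (k θ) ≤ exp (1/2) ≤ 2`).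
The regions for different `k` are disjoint and contained in `Rg K 1 (s/2) (2 s)`; sum (`measure_biUnion`; measurability: `Rg` is measurable, all functions are continuous; or `measure_union_le`-free: by induction on `m` with `gv a c = gv a b + gv b c`, `gv_add`). There are at least `1 / (2 θ)` values of `k`: `gv s (s (1+θ)) ≤ 4 θ vo (Rg K 1 (s/2) (2 s))`,
and this volume is at most `(2 C' (2 C y)) ^ (4 d)` (`rg_bd` with `2 y`, `le_vl`, `vo_box`). `θ = 0`: the region is empty.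
`rg_vol`: divide by `T ^ (4 d)` (`rg_gv`): `s = x₁ / T^(4d) ≥ 1/y`, `t = x₂ / T^(4d)`; the difference is `(1+η)^(4d) gv s₊ t₊ - (1-η)^(4d) gv s₋ t₋`, `s₊ = s (1-η)/(1+η)^(4d)`, `t₊ = t (1+η)/(1+η)^(4d)`, `s₋ = s (1+η)/(1-η)^(4d)`, `t₋ = t (1-η)/(1-η)^(4d)`. `η ≤ η₀` small (`η ≤ 1 / (C d)`): otherwise the trivial bound of the first volume
is enough. `t₊ ≤ t ≤ t₋` and `s₊ ≤ s ≤ s₋` (`4 d ≥ 1`), so `Rg 1 s₊ t₊ ⊆ Rg 1 s₊ s₋ ∪ Rg 1 s₋ t₋` (if `t₋ ≤ s₋`, the first alone covers). `s₋ / s₊ = 1 + θ`, `θ ≤ C η ≤ 1`, `s₊ ≥ 1 / (C y)`: `thin`. `(1+η)^(4d) - (1-η)^(4d) ≤ C η`, times `gv s₋ t₋ ≤ C y^(4d)` (`gv_le`).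
-/

set_option autoImplicit false

open scoped NumberField Matrix
open H77.MF

noncomputable section

namespace H88.SL

theorem gv_add (K : Type) [Field K] [NumberField K] {a b c : ℝ} (h0 : 0 < a) (h1 : a ≤ b) (h2 : b ≤ c) : gv K a c = gv K a b + gv K b c := by
  sorry

theorem gv_le (K : Type) [Field K] [NumberField K] : ∃ C : ℝ, 1 ≤ C ∧ ∀ y s t : ℝ, 1 ≤ y → 1 / y ≤ s → gv K s t ≤ C * y ^ (4 * Module.finrank ℚ K) := by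
  sorry

theorem thin (K : Type) [Field K] [NumberField K] : ∃ C : ℝ, 1 ≤ C ∧ ∀ y s θ : ℝ, 1 ≤ y → 1 / y ≤ s → 0 ≤ θ → θ ≤ 1 →
    gv K s (s * (1 + θ)) ≤ C * y ^ (4 * Module.finrank ℚ K) * θ := by
  sorry

theorem rg_vol (K : Type) [Field K] [NumberField K] : ∃ C : ℝ, 1 ≤ C ∧ ∀ T y x₁ x₂ η : ℝ, 0 < T → 1 ≤ y → T ^ (4 * Module.finrank ℚ K) / y ≤ x₁ → x₁ ≤ x₂ →
    0 ≤ η → η ≤ 1 / 4 →
    vo (Rg K (T * (1 + η)) (x₁ * (1 - η)) (x₂ * (1 + η))) - vo (Rg K (T * (1 - η)) (x₁ * (1 + η)) (x₂ * (1 - η))) ≤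
      C * y ^ (4 * Module.finrank ℚ K) * η * T ^ (4 * Module.finrank ℚ K) := by
  sorry

end H88.SL
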