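import Pool.Agent.H88.SL.RgS
import Pool.Agent.H88.SL.RgV
import Pool.Agent.H88.SL.Cnt

/-!
# [H88 SL FM] The number of the forms in the region (45 min)

`C₀` from `rg_up`, `C₁` from `rg_vol`; `ρ = N absNorm J`, `η = C₀ y⁵ ρ / T ≤ 1/4` (`C ≥ 4 C₀`). `cnt_per` with `D = Rg K T x₁ x₂` (`bdd_rg`), `vo D = T^(4d) gv (..) (..)` (`rg_gv`). `up`, `dn` by `rg_up`, `vo_mono` (the sets `Rg` are bounded: `x₁ (1 - η) > 0`), difference by `rg_vol`: at most `C₁ y^(4d) η T^(4d) = C₀ C₁ y^(4d+5) ρ T^(4d-1)`.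
-/

set_option autoImplicit false

open scoped NumberField Matrix
open H77.MF

noncomputable section

namespace H88.SL

theorem form_cnt (K : Type) [Field K] [NumberField K] : ∃ C : ℝ, 1 ≤ C ∧ ∀ (N : ℕ) (M : Submodule (𝓞 K) (Fin 4 → K)), Ful N M → ∀ J : Ideal (𝓞 K), J ≠ ⊥ →
    ∀ h : (Fin 4 → K) → ℝ, Per M J h → (∀ f ∈ M, |h f| ≤ 1) → ∀ T y x₁ x₂ : ℝ, 0 < T → 1 ≤ y → T ^ (4 * Module.finrank ℚ K) / y ≤ x₁ → x₁ ≤ x₂ →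
    C * y ^ 5 * (N * Ideal.absNorm J : ℕ) ≤ T →
    {f : Fin 4 → K | f ∈ M ∧ em f ∈ Rg K T x₁ x₂}.Finite ∧
    |(∑ᶠ f ∈ {f : Fin 4 → K | f ∈ M ∧ em f ∈ Rg K T x₁ x₂}, h f) -
      mean M J h * (T ^ (4 * Module.finrank ℚ K) * gv K (x₁ / T ^ (4 * Module.finrank ℚ K)) (x₂ / T ^ (4 * Module.finrank ℚ K))) / cov M| ≤
      C * y ^ (4 * Module.finrank ℚ K + 5) * (N * Ideal.absNorm J : ℕ) * T ^ (4 * Module.finrank ℚ K) / T / cov M := by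
  obtain ⟨C₀, hC₀, hup⟩ := rg_up K
  obtain ⟨C₁, hC₁, hvol⟩ := rg_vol K
  have hC₀0 : 0 < C₀ := by linarith
  have hC₁0 : 0 < C₁ := by linarith
  have h01 : 1 ≤ C₀ * C₁ := one_le_mul_of_one_le_of_one_le hC₀ hC₁
  refine ⟨4 * (C₀ * C₁), by linarith, ?_⟩
  intro N M hM J hJ h hp hh T y x₁ x₂ hT hy hx₁ hx hCT
  have hy0 : 0 < y := by linarith
  obtain ⟨ρ, hρ⟩ : ∃ ρ : ℝ, ρ = ((N * Ideal.absNorm J : ℕ) : ℝ) := ⟨_, rfl⟩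
  obtain ⟨d, hd⟩ : ∃ d : ℕ, d = Module.finrank ℚ K := ⟨_, rfl⟩
  have hρ0 : 0 ≤ ρ := by
    rw [hρ]
    exact Nat.cast_nonneg _
  obtain ⟨η, hη⟩ : ∃ η, η = C₀ * y ^ 5 * ρ / T := ⟨_, rfl⟩
  have hη0 : 0 ≤ η := by
    rw [hη]
    positivity
  have hη1 : η ≤ 1 / 4 := by
    rw [hη, div_le_iff₀ hT]
    rw [← hρ] at hCT
    have h1 : C₀ * y ^ 5 * ρ * 1 ≤ C₀ * y ^ 5 * ρ * C₁ := mul_le_mul_of_nonneg_left hC₁ (by positivity)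
    have h2 : 4 * (C₀ * C₁) * y ^ 5 * ρ = 4 * (C₀ * y ^ 5 * ρ * C₁) := by ring
    rw [h2] at hCT
    linarith
  have hx₁0 : 0 < x₁ := lt_of_lt_of_le (by positivity) hx₁
  have hB : Bdd (Rg K T x₁ x₂) := bdd_rg hT hx₁0
  constructor
  · have h1 := (cnt_coset hM 0 hB).1
    simpa only [sub_zero] using h1
  · have h1 := cnt_per hM hJ hp hh hB
    rw [rg_gv hT] at h1
    refine h1.trans ?_
    refine div_le_div_of_nonneg_right ?_ (cov_pos hM).le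
    obtain ⟨h2, h3⟩ := hup T y x₁ x₂ ρ hT hy hx₁ hρ0 (by rw [← hη]; exact hη1)
    rw [← hη] at h2 h3
    rw [← hρ]
    have h4 : vo (up (Rg K T x₁ x₂) ρ) ≤ vo (Rg K (T * (1 + η)) (x₁ * (1 - η)) (x₂ * (1 + η))) :=
      vo_mono (bdd_rg (by positivity) (mul_pos hx₁0 (by linarith))) h2
    have h5 : vo (Rg K (T * (1 - η)) (x₁ * (1 + η)) (x₂ * (1 - η))) ≤ vo (dn (Rg K T x₁ x₂) ρ) := by
      refine vo_mono ?_ h3
      obtain ⟨B, hB⟩ := hB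
      exact ⟨B, fun x hx => hB x ((dn_sub hρ0).1 hx)⟩
    have h6 := hvol T y x₁ x₂ η hT hy hx₁ hx hη0 hη1
    rw [← hd] at h6 ⊢
    have h7 : C₁ * y ^ (4 * d) * η * T ^ (4 * d) = C₀ * C₁ * y ^ (4 * d + 5) * ρ * T ^ (4 * d) / T := by
      rw [hη, pow_add]
      ring
    have h8 : C₀ * C₁ * y ^ (4 * d + 5) * ρ * T ^ (4 * d) / T ≤
        4 * (C₀ * C₁) * y ^ (4 * d + 5) * ρ * T ^ (4 * d) / T := by
      have h9 : 4 * (C₀ * C₁) * y ^ (4 * d + 5) * ρ * T ^ (4 * d) / T =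
          4 * (C₀ * C₁ * y ^ (4 * d + 5) * ρ * T ^ (4 * d) / T) := by ring
      rw [h9]
      have h10 : 0 ≤ C₀ * C₁ * y ^ (4 * d + 5) * ρ * T ^ (4 * d) / T := by positivity
      linarith
    linarith

end H88.SL
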