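import Pool.Agent.H88.SL.Crd

/-!
# [H88 SL JAC] Real linear maps with given values at the embeddings (90 min)

`x ∈ V`: the family `z σ = M σ (vl σ x)` is compatible with the conjugation (`vl_conj`, `hM`, `Matrix.map_mulVec`-type), so `vl_ex` gives exactly one `G x` with `vl σ (G x) = z σ`; uniqueness gives that `G` is linear. Determinant: coordinates `(j, i) ∈ Fin n × Ix K`. `Ω : Matrix (K →+* ℂ) (Ix K) ℂ`, `Ω σ i = σ (ω i)`; `E = ` the
`ℂ`-linear isomorphism `(Fin n × Ix K → ℂ) ≃ ((K →+* ℂ) × Fin n → ℂ)`, `E y (σ, j) = ∑ i, y (j, i) σ (ω i)` (it is bijective by `NumberField.canonicalEmbedding.latticeBasis`). With `G` also the complex matrix of `G` (the real matrix mapped to `ℂ`): `E ∘ G = blockDiagonal (M σ) ∘ E` on the real vectors, so on all vectors (linearity,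
the real vectors generate). So `det G = det (blockDiagonal M) = ∏ det (M σ)` (`Matrix.det_blockDiagonal` after `Matrix.reindex`, `LinearMap.det_conj`, `LinearMap.det_baseChange` or `Matrix.det_map`: `det (A.map ofReal) = ofReal (det A)`), absolute values: `‖(det G : ℂ)‖ = |det G|`, `norm_prod`.
-/

set_option autoImplicit false

open scoped NumberField Matrix
open H77.MF

noncomputable section

namespace H88.SL

variable {K : Type} [Field K] [NumberField K]

theorem jac {n : ℕ} (M : (K →+* ℂ) → Matrix (Fin n) (Fin n) ℂ)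
    (hM : ∀ σ, M (NumberField.ComplexEmbedding.conjugate σ) = (M σ).map (starRingEnd ℂ)) :
    ∃ G : V K n →ₗ[ℝ] V K n, (∀ σ x, vl σ (G x) = M σ *ᵥ vl σ x) ∧ |LinearMap.det G| = ∏ σ, ‖(M σ).det‖ := by
  sorry

end H88.SL
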