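import Pool.Agent.H88.SL.Crd

/-!
# [H88 SL RGH] Homogeneity of the region of forms (60 min)

Everything is homogeneous: `vl σ (r • x) = r • vl σ x` (`vl_smul`); `hA`, `hC` have degree 2, `disc` degree 4, so `x ∈ Rg K T x₁ x₂` iff `r • x ∈ Rg K (r T) (r^(4d) x₁) (r^(4d) x₂)` (`dp (r • x) = r ^ (4 d) dp x`, the number of the embeddings is `d`, `NumberField.Embeddings.card`). `MeasureTheory.Measure.addHaar_smul`
(or `addHaar_preimage_smul`), `finrank ℝ (V K 4) = 4 d`. `rg_star`: `S x = (r² x 0, r x 1, x 2, r⁻¹ x 3)`: real linear, `det = r ^ (2 d)` (diagonal; `LinearMap.det_pi`-type or `Matrix.det_diagonal`; or `MeasureTheory.Measure.addHaar_image_linearMap`; another way: `volume` is a product measure over `Fin 4`, `Real.volume_preserving..`).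
`hA (S x) = r² hA x`, `hC (S x) = hC x`, `disc (S x) = r² disc x` at every `σ`, so `S` maps `Rg K T x₁ x₂` into `Rg K T (r^(2d) x₁) (r^(2d) x₂)`. Both have finite measure by hypothesis.
`dp_em`: `Algebra.norm_eq_prod_embeddings`. `em_rt`: unfold.
-/

set_option autoImplicit false

open scoped NumberField Matrix
open H77.MF

noncomputable section

namespace H88.SL

variable {K : Type} [Field K] [NumberField K]

theorem dp_em (f : Fin 4 → K) : dp (em f) = |((Algebra.norm ℚ (disc f) : ℚ) : ℝ)| := by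
  sorry

theorem em_rt (f : Fin 4 → K) (T : ℝ) : em f ∈ RT K T ↔ GB T f := by
  sorry

/-- the pair and its form -/
theorem pair_rt {f : Fin 4 → K} {v w : Fin 2 → K} (hv : dt v w ≠ 0) (T : ℝ) :
    em ((dt v w)⁻¹ • pull f v w) ∈ RT K T ↔ em v ∈ Uf f T ∧ em w ∈ Uf f T := by
  sorry

theorem disc_pull {R : Type} [Field R] {f : Fin 4 → R} {v w : Fin 2 → R} (hv : dt v w ≠ 0) :
    disc ((dt v w)⁻¹ • pull f v w) = dt v w ^ 2 * disc f := by
  sorry

theorem rg_hom {r : ℝ} (hr : 0 < r) (T x₁ x₂ : ℝ) :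
    vo (Rg K (r * T) (r ^ (4 * Module.finrank ℚ K) * x₁) (r ^ (4 * Module.finrank ℚ K) * x₂)) =
      r ^ (4 * Module.finrank ℚ K) * vo (Rg K T x₁ x₂) := by
  sorry

theorem rg_star {r : ℝ} (hr : 0 < r) (hr1 : r ≤ 1) (T x₁ x₂ : ℝ) (h : Bdd (Rg K T (r ^ (2 * Module.finrank ℚ K) * x₁) (r ^ (2 * Module.finrank ℚ K) * x₂))) :
    r ^ (2 * Module.finrank ℚ K) * vo (Rg K T x₁ x₂) ≤
      vo (Rg K T (r ^ (2 * Module.finrank ℚ K) * x₁) (r ^ (2 * Module.finrank ℚ K) * x₂)) := by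
  sorry

theorem rg_gv {T : ℝ} (hT : 0 < T) (x₁ x₂ : ℝ) :
    vo (Rg K T x₁ x₂) = T ^ (4 * Module.finrank ℚ K) * gv K (x₁ / T ^ (4 * Module.finrank ℚ K)) (x₂ / T ^ (4 * Module.finrank ℚ K)) := by
  sorry

end H88.SL
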