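import Pool.Agent.H88.SL.RgB

/-!
# [H88 SL RGS] The region of forms enlarged and reduced (90 min)

`x ∈ Rg K T x₁ x₂`, `|x' j i - x j i| ≤ ρ`: at every `σ`, `g = vl σ x`, `g' = vl σ x'`: `‖g j‖ ≤ C₀ y T` (`rg_bd`), `‖g' j - g j‖ ≤ C₀ ρ =: δ` (`vl_le`), and `δ ≤ T` if `η ≤ 1`. Telescoping (polynomials of degree 2, 4, 6; put `P = 2 C₀ y T`, `‖g‖, ‖g'‖ ≤ P`): `‖hA g' - hA g‖ ≤ 8 P δ`, the same for `hC`;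
`‖disc g' - disc g‖ ≤ 300 P³ δ`; `‖g' 0² disc g' - g 0² disc g‖ ≤ 1000 P⁵ δ`. Relative to `T²`, `‖disc g‖ ≥ T⁴ / (C₀ y)`, `T⁶`: at most `ε = C₁ y⁵ ρ / T`. So (`η = C y⁵ ρ / T`, `C ≥ 4 d 2 ^ d C₁`, `η ≤ 1/4`): `‖hA g'‖ ≤ T² (1 + ε) ≤ (T (1 + η))²`, `T⁶ (1 + ε) ≤ (T (1 + η))⁶`, `‖disc g'‖` is between `(1 ∓ ε) ‖disc g‖`, the
product over the `d` embeddings between `(1 - ε) ^ d ≥ 1 - η / 2` (in particular `> 1 - η`) and `(1 + ε) ^ d ≤ 1 + η / 2` times `dp x`. This is the first inclusion. Second: `x ∈ Rg K (T (1 - η)) (x₁ (1 + η)) (x₂ (1 - η))`: the same computation with `T' = T (1 - η)` (`3/4 T ≤ T' ≤ T`, so `rg_bd` applies with `T'` and the same `y`: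
`T'^(4d) / y ≤ x₁ (1 + η)`): `T'² (1 + ε') ≤ T²`, `T'⁶ (1 + ε') ≤ T⁶`, `dp x' ≥ dp x (1 - η / 2) > x₁ (1 + η) (1 - η / 2) ≥ x₁`, `dp x' ≤ x₂ (1 - η) (1 + η / 2) ≤ x₂` (`ε' = C₁ y⁵ ρ / T' ≤ 4/3 ε`; `x₂ > 0` because `dp x > 0`).
-/

set_option autoImplicit false

open scoped NumberField Matrix
open H77.MF

noncomputable section

namespace H88.SL

theorem rg_up (K : Type) [Field K] [NumberField K] : ∃ C : ℝ, 1 ≤ C ∧ ∀ T y x₁ x₂ ρ : ℝ, 0 < T → 1 ≤ y → T ^ (4 * Module.finrank ℚ K) / y ≤ x₁ → 0 ≤ ρ →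
    C * y ^ 5 * ρ / T ≤ 1 / 4 →
    up (Rg K T x₁ x₂) ρ ⊆ Rg K (T * (1 + C * y ^ 5 * ρ / T)) (x₁ * (1 - C * y ^ 5 * ρ / T)) (x₂ * (1 + C * y ^ 5 * ρ / T)) ∧
    Rg K (T * (1 - C * y ^ 5 * ρ / T)) (x₁ * (1 + C * y ^ 5 * ρ / T)) (x₂ * (1 - C * y ^ 5 * ρ / T)) ⊆ dn (Rg K T x₁ x₂) ρ := by
  sorry

end H88.SL
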