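import Pool.Agent.H88.SL.Jac
import Pool.Agent.H88.SL.Cub
import Pool.Agent.H88.SL.Cube

/-!
# [H88 SL VF] The volume of the region of one vector (90 min)

`hK`: `K` is totally complex. `tri` at `σ ∘ f` gives matrices `M₀ σ`; make them compatible with the conjugation: `M σ = M₀ σ` if `σ = (NumberField.InfinitePlace.mk σ).embedding`, otherwise the conjugate of `M₀ (conjugate σ)` (`InfinitePlace.mk_conjugate_eq`, `InfinitePlace.mk_embedding`, `InfinitePlace.mk_eq_iff`: exactly one of `σ`,
`conjugate σ` is the chosen one, by `hK`). The three properties of `tri` hold for all `σ` (apply the conjugation to both sides; `conjugate σ (x) = conj (σ x)`). `G` from `jac`: `x ∈ Uf f T` iff `(1/T) • G x ∈ U1 K` (`q`, `cu` homogeneous, `‖cu²‖ ≤ T⁶` iff `‖cu‖ ≤ T³`). `|det G| = ∏ ‖det M σ‖ = √ ∏ ‖σ (disc f)‖ =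
√ |norm (disc f)|` (`Algebra.norm_eq_prod_embeddings`, see `tb_prod_norm` in `H88/SW/TbA.lean`), not 0. `MeasureTheory.Measure.addHaar_preimage_linearMap` for `(1/T) • G` (`volume` on `V K 2` is a Haar measure, `finrank = 2 d`), `LinearMap.det_smul`. Bounded: `q_cu`, `le_vl`; for `Uf`: `Uf f T` is the preimage of a bounded set under an
isomorphism (or `q_cu` for `M σ *ᵥ vl σ x` and the inverse matrices). `u1_pos`: `U1 K` contains the box `|x j i| ≤ 1 / (2 C)`, `C` from `vl_le`.
-/

set_option autoImplicit false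

open scoped NumberField Matrix
open H77.MF

noncomputable section

namespace H88.SL

variable {K : Type} [Field K] [NumberField K]

theorem bdd_u1 (K : Type) [Field K] [NumberField K] : Bdd (U1 K) := by
  sorry

theorem u1_pos (K : Type) [Field K] [NumberField K] : 0 < vo (U1 K) := by
  sorry

theorem bdd_uf {f : Fin 4 → K} (hf : disc f ≠ 0) (T : ℝ) : Bdd (Uf f T) := by
  sorry

theorem vol_uf (hK : ∀ σ : K →+* ℂ, NumberField.ComplexEmbedding.conjugate σ ≠ σ) {f : Fin 4 → K} (hf : disc f ≠ 0) {T : ℝ} (hT : 0 < T) :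
    vo (Uf f T) = vo (U1 K) * T ^ (2 * Module.finrank ℚ K) / Real.sqrt |((Algebra.norm ℚ (disc f) : ℚ) : ℝ)| := by
  sorry

end H88.SL
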